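import Pool.Agent.H73.ZP.Df

/-!
Class (E) (helper28): convex sets in a half strip over one of their edges; the tie lemma.
-/

open Real

namespace H10CE

open ZP (V)

/-- `L` lies in the half strip `{f v ≤ f ≤ f w, g ≤ g v}` over its edge `[v, w]`. -/
structure Cls (f g : V →ₗ[ℝ] ℝ) (L : Set V) (v w : V) : Prop where
  inj : ∀ x, f x = 0 → g x = 0 → x = 0
  cvx : Convex ℝ L
  hv : v ∈ L
  hw : w ∈ L
  hg : g w = g v
  le1 : ∀ x ∈ L, f v ≤ f x
  le2 : ∀ x ∈ L, f x ≤ f w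
  le3 : ∀ x ∈ L, g x ≤ g v

variable {f g : V →ₗ[ℝ] ℝ} {L : Set V} {v w : V}

/-- Points of the edge. -/
theorem Cls.edge (h : Cls f g L v w) {y : V} (h1 : f v ≤ f y) (h2 : f y ≤ f w) (h3 : g y = g v) :
    y ∈ L := by
  rcases eq_or_lt_of_le (h1.trans h2) with he | hlt
  · have e1 : f y = f v := le_antisymm (h2.trans he.ge) h1
    have e2 : y = v := by
      rw [← sub_eq_zero]
      apply h.inj
      · rw [map_sub, e1, sub_self]
      · rw [map_sub, h3, sub_self]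
    rw [e2]
    exact h.hv
  · have hd : 0 < f w - f v := by linarith
    obtain ⟨s, hs⟩ : ∃ s, s = (f y - f v) / (f w - f v) := ⟨_, rfl⟩
    have hs0 : 0 ≤ s := by
      rw [hs]
      exact div_nonneg (by linarith) hd.le
    have hs1 : s ≤ 1 := by
      rw [hs, div_le_one hd]
      linarith
    have hs2 : s * (f w - f v) = f y - f v := by
      rw [hs]
      exact div_mul_cancel₀ _ hd.ne'
    have e2 : y = (1 - s) • v + s • w := by
      rw [← sub_eq_zero]
      apply h.inj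
      · rw [map_sub, map_add, map_smul, map_smul, smul_eq_mul, smul_eq_mul]
        linarith
      · rw [map_sub, map_add, map_smul, map_smul, smul_eq_mul, smul_eq_mul, h3, h.hg]
        ring
    rw [e2]
    exact h.cvx h.hv h.hw (by linarith) hs0 (by ring)

/-- A segment crosses a level line of `g`. -/
private theorem cross (T : Set V) (hT : Convex ℝ T) {p q : V} (hp : p ∈ T) (hq : q ∈ T) {γ c : ℝ}
    (h1 : g p ≤ γ) (h2 : γ ≤ g q) (h3 : f p ≤ c) (h4 : f q ≤ c) :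
    ∃ r ∈ T, g r = γ ∧ f r ≤ c := by
  rcases eq_or_lt_of_le (h1.trans h2) with he | hlt
  · exact ⟨p, hp, le_antisymm h1 (by rw [he]; exact h2), h3⟩
  · have hd : 0 < g q - g p := by linarith
    obtain ⟨s, hs⟩ : ∃ s, s = (γ - g p) / (g q - g p) := ⟨_, rfl⟩
    have hs0 : 0 ≤ s := by
      rw [hs]
      exact div_nonneg (by linarith) hd.le
    have hs1 : s ≤ 1 := by
      rw [hs, div_le_one hd]
      linarith
    have hs2 : s * (g q - g p) = γ - g p := by
      rw [hs]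
      exact div_mul_cancel₀ _ hd.ne'
    refine ⟨(1 - s) • p + s • q, hT hp hq (by linarith) hs0 (by ring), ?_, ?_⟩
    · rw [map_add, map_smul, map_smul, smul_eq_mul, smul_eq_mul]
      linarith
    · rw [map_add, map_smul, map_smul, smul_eq_mul, smul_eq_mul]
      nlinarith

/-- The tie lemma, ordered form. -/
private theorem tie' (h : Cls f g L v w) {x₁ x₂ x₃ : V}
    (h12 : ∃ p, p - x₁ ∈ L ∧ p - x₂ ∈ L) (h13 : ∃ p, p - x₁ ∈ L ∧ p - x₃ ∈ L)
    (h23 : ∃ p, p - x₂ ∈ L ∧ p - x₃ ∈ L) (e : g x₂ = g x₁) (hle : g x₁ ≤ g x₃)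
    (hf : f x₁ ≤ f x₂) : ∃ o, o - x₁ ∈ L ∧ o - x₂ ∈ L ∧ o - x₃ ∈ L := by
  obtain ⟨p, hp1, hp2⟩ := h12
  obtain ⟨q, hq1, hq3⟩ := h13
  obtain ⟨r, hr2, hr3⟩ := h23
  have a1 := h.le1 _ hp1
  have a2 := h.le2 _ hp1
  have a3 := h.le1 _ hp2
  have a4 := h.le2 _ hp2
  have b1 := h.le1 _ hq1
  have b2 := h.le2 _ hq1
  have b3 := h.le3 _ hq1
  have b4 := h.le1 _ hq3
  have b5 := h.le2 _ hq3
  have c1 := h.le1 _ hr2
  have c2 := h.le2 _ hr2
  have c3 := h.le3 _ hr2
  have c4 := h.le1 _ hr3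
  have c5 := h.le2 _ hr3
  simp only [map_sub] at a1 a2 a3 a4 b1 b2 b3 b4 b5 c1 c2 c3 c4 c5
  have hT : Convex ℝ {o : V | o - x₃ ∈ L} := by
    intro y hy z hz s t hs ht hst
    have e1 : s • y + t • z - x₃ = s • (y - x₃) + t • (z - x₃) := by
      have : x₃ = s • x₃ + t • x₃ := by rw [← add_smul, hst, one_smul]
      rw [smul_sub, smul_sub]
      nth_rewrite 1 [this]
      abel
    show s • y + t • z - x₃ ∈ L
    rw [e1]
    exact h.cvx hy hz hs ht hst
  have hv3 : (x₃ + v) ∈ {o : V | o - x₃ ∈ L} := by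
    show x₃ + v - x₃ ∈ L
    rw [add_sub_cancel_left]
    exact h.hv
  have hw3 : (x₃ + w) ∈ {o : V | o - x₃ ∈ L} := by
    show x₃ + w - x₃ ∈ L
    rw [add_sub_cancel_left]
    exact h.hw
  have hg := h.hg
  obtain ⟨y, hy, hyg, hyf⟩ := cross (f := f) (g := g) _ hT hq3 hv3 (γ := g x₁ + g v)
    (c := f x₁ + f w) (by linarith) (by rw [map_add]; linarith) (by linarith)
    (by rw [map_add]; linarith)
  obtain ⟨z, hz, hzg, hzf⟩ := cross (f := -f) (g := g) _ hT hr3 hw3 (γ := g x₁ + g v)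
    (c := -(f x₂ + f v)) (by linarith) (by rw [map_add]; linarith)
    (by rw [LinearMap.neg_apply]; linarith)
    (by rw [LinearMap.neg_apply, map_add]; linarith)
  rw [LinearMap.neg_apply] at hzf
  -- a point of the level line in `T₃` with `f` in the common range
  obtain ⟨o, ho, hog, ho1, ho2⟩ : ∃ o, o - x₃ ∈ L ∧ g o = g x₁ + g v ∧ f x₂ + f v ≤ f o ∧
      f o ≤ f x₁ + f w := by
    rcases le_or_gt (f x₂ + f v) (f y) with k | k
    · exact ⟨y, hy, hyg, k, hyf⟩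
    · rcases le_or_gt (f z) (f x₁ + f w) with k' | k'
      · exact ⟨z, hz, hzg, by linarith, k'⟩
      · have hd : 0 < f z - f y := by linarith
        obtain ⟨s, hs⟩ : ∃ s, s = (f x₂ + f v - f y) / (f z - f y) := ⟨_, rfl⟩
        have hs0 : 0 ≤ s := by
          rw [hs]
          exact div_nonneg (by linarith) hd.le
        have hs1 : s ≤ 1 := by
          rw [hs, div_le_one hd]
          linarith
        have hs2 : s * (f z - f y) = f x₂ + f v - f y := by
          rw [hs]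
          exact div_mul_cancel₀ _ hd.ne'
        refine ⟨(1 - s) • y + s • z, hT hy hz (by linarith) hs0 (by ring), ?_, ?_, ?_⟩
        · rw [map_add, map_smul, map_smul, smul_eq_mul, smul_eq_mul, hyg, hzg]
          ring
        · rw [map_add, map_smul, map_smul, smul_eq_mul, smul_eq_mul]
          linarith
        · rw [map_add, map_smul, map_smul, smul_eq_mul, smul_eq_mul]
          linarith
  refine ⟨o, h.edge ?_ ?_ ?_, h.edge ?_ ?_ ?_, ho⟩
  · rw [map_sub]; linarith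
  · rw [map_sub]; linarith
  · rw [map_sub]; linarith
  · rw [map_sub]; linarith
  · rw [map_sub]; linarith
  · rw [map_sub]; linarith

/-- The tie lemma. -/
theorem tie (h : Cls f g L v w) {x₁ x₂ x₃ : V}
    (h12 : ∃ p, p - x₁ ∈ L ∧ p - x₂ ∈ L) (h13 : ∃ p, p - x₁ ∈ L ∧ p - x₃ ∈ L)
    (h23 : ∃ p, p - x₂ ∈ L ∧ p - x₃ ∈ L) (e : g x₂ = g x₁) (hle : g x₁ ≤ g x₃) :
    ∃ o, o - x₁ ∈ L ∧ o - x₂ ∈ L ∧ o - x₃ ∈ L := by
  rcases le_total (f x₁) (f x₂) with hf | hf
  · exact tie' h h12 h13 h23 e hle hf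
  · obtain ⟨p, h1, h2⟩ := h12
    obtain ⟨o, h1, h2, h3⟩ := tie' h ⟨p, h2, h1⟩ h23 h13 e.symm (by rw [e]; exact hle) hf
    exact ⟨o, h2, h1, h3⟩

end H10CE
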